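import Mathlib
import Pool.Agent.Helper18.SG.Goals2

set_option autoImplicit false

namespace Pool.Agent.Helper2.SG

open Finset Pool.Agent.Helper18.SG

/-- increments of a concave sequence on `[0, N]` -/
theorem inc_anti {f : ℕ → ℤ} {N : ℕ} (h : ∀ j, j + 2 ≤ N → f (j + 2) - f (j + 1) ≤ f (j + 1) - f j)
    {i j : ℕ} (hij : i ≤ j) (hj : j + 1 ≤ N) : f (j + 1) - f j ≤ f (i + 1) - f i := by
  induction j, hij using Nat.le_induction with
  | base => exact le_rfl
  | succ j _ ih =>
    have h1 := h j (by omega)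
    have h2 := ih (by omega)
    have h3 : f (j + 1 + 1) = f (j + 2) := rfl
    linarith

/-- windows of a concave sequence on `[0, N]` -/
theorem window {f : ℕ → ℤ} {N : ℕ} (h : ∀ j, j + 2 ≤ N → f (j + 2) - f (j + 1) ≤ f (j + 1) - f j)
    {i j : ℕ} (hij : i ≤ j) (k : ℕ) (hj : j + k ≤ N) : f (j + k) - f j ≤ f (i + k) - f i := by
  induction k with
  | zero => simp
  | succ k ih =>
    have h1 := ih (by omega)
    have h2 := inc_anti h (i := i + k) (j := j + k) (by omega) (by omega)
    have h3 : f (j + (k + 1)) = f (j + k + 1) := rfl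
    have h4 : f (i + (k + 1)) = f (i + k + 1) := rfl
    linarith

/-- sums of increments of a concave sequence -/
theorem low {f : ℕ → ℤ} {N : ℕ} (h : ∀ j, j + 2 ≤ N → f (j + 2) - f (j + 1) ≤ f (j + 1) - f j)
    (n m : ℕ) (hnm : n ≤ m) (hm : m + 1 ≤ N) : (n : ℤ) * (f (m + 1) - f m) ≤ f n - f 0 := by
  induction n with
  | zero => simp
  | succ n ih =>
    have h1 := ih (by omega)
    have h2 := inc_anti h (i := n) (j := m) (by omega) hm
    push_cast
    linarith

theorem high {f : ℕ → ℤ} {N : ℕ} (h : ∀ j, j + 2 ≤ N → f (j + 2) - f (j + 1) ≤ f (j + 1) - f j)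
    (j n : ℕ) (hn : j + n ≤ N) : f (j + n) - f j ≤ (n : ℤ) * (f (j + 1) - f j) := by
  induction n with
  | zero => simp
  | succ n ih =>
    have h1 := ih (by omega)
    have h2 := inc_anti h (i := j) (j := j + n) (by omega) (by omega)
    have h3 : f (j + (n + 1)) = f (j + n + 1) := rfl
    push_cast
    linarith

/-- the chord of a concave sequence -/
theorem chord {f : ℕ → ℤ} {N : ℕ} (h : ∀ j, j + 2 ≤ N → f (j + 2) - f (j + 1) ≤ f (j + 1) - f j)
    {j k : ℕ} (hjk : j < k) (hk : k ≤ N) : (j : ℤ) * (f k - f 0) ≤ (k : ℤ) * (f j - f 0) := by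
  obtain ⟨n, rfl⟩ : ∃ n, k = j + n := ⟨k - j, by omega⟩
  have h1 := low h j j le_rfl (by omega)
  have h2 := high h j n hk
  have hn : (0 : ℤ) ≤ n := Int.natCast_nonneg n
  have hj : (0 : ℤ) ≤ j := Int.natCast_nonneg j
  push_cast
  nlinarith [mul_le_mul_of_nonneg_left h1 hn, mul_le_mul_of_nonneg_left h2 hj]

theorem gauss (n : ℕ) : 2 * ∑ j ∈ range n, (j : ℤ) = n * (n - 1) := by
  induction n with
  | zero => simp
  | succ n ih =>
    rw [sum_range_succ, mul_add, ih]
    push_cast
    ring

/-- the last three blocks -/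
theorem three {f : ℕ → ℤ} {N : ℕ} (h : ∀ j, j + 2 ≤ N → f (j + 2) - f (j + 1) ≤ f (j + 1) - f j)
    (hmono : ∀ j, j + 1 ≤ N → f j ≤ f (j + 1)) (h0 : 0 ≤ f 0) {t k : ℕ} (ht : t < k)
    (hN : t + 2 * k ≤ N) :
    ∑ i ∈ range k, f (t + 1 + k + i) + 2 * ∑ i ∈ range (t + 1), f i ≤
      3 * ∑ i ∈ range k, f (t + 1 + i) := by
  set u := f (t + k) - f t with hu
  have hkp : (0 : ℤ) < k := by
    have : 0 < k := by omega
    exact_mod_cast this
  have hu0 : 0 ≤ u := by
    have : ∀ n, t + n ≤ N → f t ≤ f (t + n) := by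
      intro n
      induction n with
      | zero => intro _; simp
      | succ n ih =>
        intro hn
        exact (ih (by omega)).trans (hmono (t + n) (by omega))
    have := this k (by omega)
    linarith
  -- the difference of the two upper blocks
  have a1 : ∑ i ∈ range k, f (t + 1 + k + i) - ∑ i ∈ range k, f (t + 1 + i) ≤ k * u := by
    rw [← sum_sub_distrib]
    calc ∑ i ∈ range k, (f (t + 1 + k + i) - f (t + 1 + i)) ≤ ∑ _i ∈ range k, u := by
          refine sum_le_sum fun i hi => ?_
          rw [mem_range] at hi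
          have := window h (i := t) (j := t + 1 + i) (by omega) k (by omega)
          rw [show t + 1 + k + i = t + 1 + i + k by ring]
          exact this
      _ = k * u := by rw [sum_const, card_range, nsmul_eq_mul]
  -- the difference of the two lower blocks
  have s1 : ∑ i ∈ range k, f (t + 1 + i) = ∑ i ∈ range (t + 1 + k), f i - ∑ i ∈ range (t + 1), f i := by
    have h9 := sum_range_add f (t + 1) k
    linarith
  have s2 : ∑ j ∈ range (t + 1), f (k + j) = ∑ i ∈ range (k + (t + 1)), f i - ∑ i ∈ range k, f i := by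
    have h9 := sum_range_add f k (t + 1)
    linarith
  have s3 : ∑ j ∈ Ico (t + 1) k, f j = ∑ i ∈ range k, f i - ∑ i ∈ range (t + 1), f i :=
    sum_Ico_eq_sub _ (by omega)
  have s4 : ∑ i ∈ range k, f (t + 1 + i) - ∑ i ∈ range (t + 1), f i =
      ∑ j ∈ range (t + 1), (f (k + j) - f j) + ∑ j ∈ Ico (t + 1) k, f j := by
    rw [sum_sub_distrib, s1, s2, s3, show t + 1 + k = k + (t + 1) by ring]
    ring
  have a2 : ((t : ℤ) + 1) * u ≤ ∑ j ∈ range (t + 1), (f (k + j) - f j) := by
    calc ((t : ℤ) + 1) * u = ∑ _j ∈ range (t + 1), u := by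
          rw [sum_const, card_range, nsmul_eq_mul]
          push_cast
          ring
      _ ≤ _ := by
          refine sum_le_sum fun j hj => ?_
          rw [mem_range] at hj
          have := window h (i := j) (j := t) (by omega) k (by omega)
          rw [add_comm k j]
          exact this
  have a3 : u * ∑ j ∈ Ico (t + 1) k, (j : ℤ) ≤ k * ∑ j ∈ Ico (t + 1) k, f j := by
    rw [mul_sum, mul_sum]
    refine sum_le_sum fun j hj => ?_
    rw [mem_Ico] at hj
    have h3 := chord h (j := j) (k := k) hj.2 (by omega)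
    have h4 := window h (i := 0) (j := t) (by omega) k (by omega)
    rw [zero_add] at h4
    have hj0 : (0 : ℤ) ≤ j := Int.natCast_nonneg j
    have h5 : (j : ℤ) * u ≤ j * (f k - f 0) := mul_le_mul_of_nonneg_left h4 hj0
    have h6 : 0 ≤ (k : ℤ) * f 0 := mul_nonneg hkp.le h0
    linarith
  have a4 : 2 * ∑ j ∈ Ico (t + 1) k, (j : ℤ) = k * (k - 1) - (t + 1) * t := by
    rw [sum_Ico_eq_sub _ (by omega : t + 1 ≤ k), mul_sub, gauss, gauss]
    push_cast
    ring
  have htk : (t : ℤ) + 1 ≤ k := by exact_mod_cast ht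
  have ht0 : (0 : ℤ) ≤ t := Int.natCast_nonneg t
  set A := ∑ i ∈ range k, f (t + 1 + k + i)
  set B := ∑ i ∈ range k, f (t + 1 + i)
  set C := ∑ i ∈ range (t + 1), f i
  set E := ∑ j ∈ Ico (t + 1) k, f j
  set G := ∑ j ∈ Ico (t + 1) k, (j : ℤ)
  set W := ∑ j ∈ range (t + 1), (f (k + j) - f j)
  have b1 : (k : ℤ) * k ≤ 2 * k * (t + 1) + 2 * G := by
    rw [a4]
    nlinarith
  have b2 : u * (k * k) ≤ u * (2 * k * (t + 1) + 2 * G) := mul_le_mul_of_nonneg_left b1 hu0
  have b3 : (k : ℤ) * (A - B) ≤ k * (k * u) := mul_le_mul_of_nonneg_left a1 hkp.le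
  have b4 : (k : ℤ) * ((t + 1) * u) ≤ k * W := mul_le_mul_of_nonneg_left a2 hkp.le
  have b5 : (k : ℤ) * (B - C) = k * W + k * E := by rw [s4]; ring
  have b6 : (k : ℤ) * (A + 2 * C) ≤ k * (3 * B) := by nlinarith
  exact le_of_mul_le_mul_left b6 hkp

/-- Packet SG2-T2: blocks of a concave sequence. -/
theorem goalT2 : GoalT2 := by
  intro r τ k hk hpos hanti h1 h2
  have hτ : k * (τ / k) + τ % k = τ := Nat.div_add_mod τ k
  have ht : τ % k < k := Nat.mod_lt τ hk
  set q := τ / k with hq
  set t := τ % k with ht'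
  -- concavity
  have hc : ∀ b, b + 2 * k + 1 ≤ τ → r b + r (b + 2 * k) ≤ 2 * r (b + k) := by
    intro b hb
    have h3 : ∀ j, j + 2 ≤ τ - 1 → (fun j => (r j : ℤ)) (j + 2) - (fun j => (r j : ℤ)) (j + 1) ≤
        (fun j => (r j : ℤ)) (j + 1) - (fun j => (r j : ℤ)) j := by
      intro j hj
      have := h1 j (by omega)
      have h4 : ((r j : ℤ)) + r (j + 2) ≤ 2 * r (j + 1) := by exact_mod_cast this
      simp only
      linarith
    have h5 := window (f := fun j => (r j : ℤ)) (N := τ - 1) h3 (i := b) (j := b + k) (Nat.le_add_right b k) k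
      (by omega)
    rw [show b + k + k = b + 2 * k by ring] at h5
    have h6 : ((r b : ℤ)) + r (b + 2 * k) ≤ 2 * r (b + k) := by linarith
    exact_mod_cast h6
  refine ⟨?_, ?_, ?_, ?_⟩
  · intro y hy
    exact sum_le_sum fun i _ => hanti (Nat.add_le_add_right (Nat.mul_le_mul_left k (by omega)) i)
  · intro y hy1 hy2
    obtain ⟨p, hp⟩ : ∃ p, q = p + y + 2 := ⟨q - y - 2, by omega⟩
    rw [show q - y = p + 2 by omega, show q - (y + 2) = p by omega,
      show q - (y + 1) = p + 1 by omega]
    unfold blk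
    rw [← sum_add_distrib, mul_sum]
    refine sum_le_sum fun i hi => ?_
    rw [mem_range] at hi
    have hle : k * (p + 3) ≤ k * q := Nat.mul_le_mul_left k (by omega)
    have := hc (k * p + i) (by nlinarith)
    rw [show k * (p + 2) + i = k * p + i + 2 * k by ring,
      show k * (p + 1) + i = k * p + i + k by ring]
    omega
  · intro hq2
    obtain ⟨p, hp⟩ : ∃ p, q = p + 2 := ⟨q - 2, by omega⟩
    rw [show q - 2 = p by omega, show q - 1 = p + 1 by omega, hp]
    have hτ' : τ = k * p + 2 * k + t := by rw [← hτ, hp]; ring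
    set m := k * p with hm
    set g : ℕ → ℤ := fun j => (r (τ - j) : ℤ) - if j = 0 then 1 else 0 with hg
    have hgc : ∀ j, j + 2 ≤ τ → g (j + 2) - g (j + 1) ≤ g (j + 1) - g j := by
      intro j hj
      simp only [hg]
      by_cases hj0 : j = 0
      · subst hj0
        have h3 := h2 (τ - 2) (by omega)
        rw [show τ - 2 + 2 = τ by omega, show τ - 2 + 1 = τ - 1 by omega] at h3
        have h4 : ((r (τ - 2) : ℤ)) + r τ ≤ 2 * r (τ - 1) + 1 := by exact_mod_cast h3
        simp
        linarith
      · have h3 := h1 (τ - (j + 2)) (by omega)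
        rw [show τ - (j + 2) + 2 = τ - j by omega, show τ - (j + 2) + 1 = τ - (j + 1) by omega] at h3
        have h4 : ((r (τ - (j + 2)) : ℤ)) + r (τ - j) ≤ 2 * r (τ - (j + 1)) := by exact_mod_cast h3
        simp [hj0]
        linarith
    have hgm : ∀ j, j + 1 ≤ τ → g j ≤ g (j + 1) := by
      intro j hj
      simp only [hg]
      have h3 : r (τ - j) ≤ r (τ - (j + 1)) := hanti (by omega)
      have h4 : ((r (τ - j) : ℤ)) ≤ r (τ - (j + 1)) := by exact_mod_cast h3
      rw [if_neg (by omega : ¬ j + 1 = 0)]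
      split_ifs <;> linarith
    have hg0 : 0 ≤ g 0 := by
      simp only [hg]
      have h3 : 0 < r τ := (hpos τ).2 le_rfl
      have h4 : (0 : ℤ) < r τ := by exact_mod_cast h3
      simp
      linarith
    have key := three hgc hgm hg0 ht (by omega)
    have hgs : ∀ j, 1 ≤ j → g j = r (τ - j) := by
      intro j hj
      simp only [hg]
      rw [if_neg (by omega), sub_zero]
    -- the three blocks
    have B0 : (blk r k (p + 2) : ℤ) = ∑ i ∈ range (t + 1), g i + 1 := by
      have e1 : blk r k (p + 2) = ∑ i ∈ range (t + 1), r (τ - i) := by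
        unfold blk
        have e2 : ∑ i ∈ range k, r (k * (p + 2) + i) = ∑ i ∈ range (t + 1), r (k * (p + 2) + i) := by
          symm
          refine sum_subset (range_subset_range.2 (by omega)) fun i hi hi2 => ?_
          rw [mem_range] at hi hi2
          by_contra hne
          have h3 := (hpos (k * (p + 2) + i)).1 (Nat.pos_of_ne_zero hne)
          have h4 : k * (p + 2) = m + 2 * k := by rw [hm]; ring
          omega
        rw [e2, ← sum_range_reflect]
        refine sum_congr rfl fun i hi => ?_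
        rw [mem_range] at hi
        congr 1
        have h4 : k * (p + 2) = m + 2 * k := by rw [hm]; ring
        omega
      rw [e1]
      push_cast
      rw [sum_range_succ', sum_range_succ' (fun i => g i)]
      have e3 : ∑ i ∈ range t, g (i + 1) = ∑ i ∈ range t, ((r (τ - (i + 1)) : ℕ) : ℤ) :=
        sum_congr rfl fun i _ => hgs (i + 1) (by omega)
      rw [e3]
      simp [hg]
      ring
    have B1 : (blk r k (p + 1) : ℤ) = ∑ i ∈ range k, g (t + 1 + i) := by
      unfold blk
      push_cast
      rw [← sum_range_reflect]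
      refine sum_congr rfl fun i hi => ?_
      rw [mem_range] at hi
      rw [hgs _ (by omega)]
      congr 2
      have h4 : k * (p + 1) = m + k := by rw [hm]; ring
      omega
    have B2 : (blk r k p : ℤ) = ∑ i ∈ range k, g (t + 1 + k + i) := by
      unfold blk
      push_cast
      rw [← sum_range_reflect]
      refine sum_congr rfl fun i hi => ?_
      rw [mem_range] at hi
      rw [hgs _ (by omega)]
      congr 2
      omega
    have fin : (blk r k p : ℤ) + 2 * blk r k (p + 2) ≤ 3 * blk r k (p + 1) + 2 := by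
      rw [B0, B1, B2]
      linarith
    exact_mod_cast fin
  · have e1 : ∑ y ∈ range (q + 1), blk r k (q - y) = ∑ y ∈ range (q + 1), blk r k y := by
      rw [← sum_range_reflect]
      refine sum_congr rfl fun y hy => ?_
      rw [mem_range] at hy
      congr 1
      omega
    have e2 : ∀ n, ∑ y ∈ range n, blk r k y = ∑ b ∈ range (k * n), r b := by
      intro n
      induction n with
      | zero => simp
      | succ n ih =>
        rw [sum_range_succ, ih, show k * (n + 1) = k * n + k by ring, sum_range_add]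
        rfl
    rw [e1, e2]
    symm
    refine sum_subset (range_subset_range.2 ?_) fun i _ hi2 => ?_
    · have : k * (q + 1) = k * q + k := by ring
      omega
    · rw [mem_range] at hi2
      by_contra hne
      have h3 := (hpos i).1 (Nat.pos_of_ne_zero hne)
      omega

end Pool.Agent.Helper2.SG
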