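import Pool.Agent.Helper52.SG.Goals2

/-!
# Packet SG-MC2: first facts on a counterexample of least order to Thompson's theorem
-/

set_option autoImplicit false

namespace Pool.Agent.Helper2.SG.MC2

open Subgroup Pool.Agent.Helper52.SG

section

variable {G : Type} [Group G]

/-- an element of `r`-power order whose order is prime to `r` is trivial -/
theorem eq_one_of {r : ℕ} {x : G} (hr : r.Prime) {n : ℕ} (h : x ^ r ^ n = 1)
    (hx : ¬ r ∣ orderOf x) : x = 1 := by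
  have h1 : orderOf x ∣ r ^ n := orderOf_dvd_of_pow_eq_one h
  have h2 : Nat.Coprime (orderOf x) (r ^ n) :=
    Nat.Coprime.pow_right _ ((hr.coprime_iff_not_dvd.2 hx).symm)
  exact orderOf_eq_one_iff.1 (Nat.Coprime.eq_one_of_dvd h2 h1)

/-- elements of `r`-subgroups have `r`-power order -/
theorem pow_of {r : ℕ} {T : Subgroup G} (hT : IsPGroup r T) {x : G} (hx : x ∈ T) :
    ∃ n : ℕ, x ^ r ^ n = 1 := by
  obtain ⟨n, hn⟩ := hT ⟨x, hx⟩
  exact ⟨n, by simpa using congrArg Subtype.val hn⟩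

/-- `r`-subgroups, by elements -/
theorem pg_of {r : ℕ} {T : Subgroup G} (h : ∀ x ∈ T, ∃ n : ℕ, x ^ r ^ n = 1) : IsPGroup r T := by
  rintro ⟨x, hx⟩
  obtain ⟨n, hn⟩ := h x hx
  exact ⟨n, Subtype.ext (by simpa using hn)⟩

/-- a Sylow subgroup `P` contains every `r`-subgroup containing `P` -/
theorem le_of_syl [Finite G] {r : ℕ} (hr : r.Prime) {P L : Subgroup G} (hP : ¬ r ∣ P.index)
    (hPL : P ≤ L) (hL : IsPGroup r L) : L ≤ P := by
  have : Fact r.Prime := ⟨hr⟩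
  obtain ⟨n, hn⟩ := hL.index (P.subgroupOf L)
  have h1 : P.relIndex L ∣ P.index := relIndex_dvd_index_of_le hPL
  have h2 : P.relIndex L = r ^ n := hn
  rcases Nat.eq_zero_or_pos n with rfl | hn0
  · exact relIndex_eq_one.1 (by simpa using h2)
  · exact absurd ((dvd_pow_self r hn0.ne').trans (h2 ▸ h1)) hP

/-- the elements of order prime to `r` lie in `K` -/
theorem mem_K {r : ℕ} (hr : r.Prime) {T K : Subgroup G} (h : TK r T K) {x : G}
    (hx : ¬ r ∣ orderOf x) : x ∈ K := by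
  obtain ⟨n, hn⟩ := h.pow x
  obtain ⟨m, hm⟩ := exists_pow_eq_self_of_coprime (x := x) (n := r ^ n)
    (Nat.Coprime.pow_left _ (hr.coprime_iff_not_dvd.2 hx))
  exact hm ▸ K.pow_mem hn m

theorem T_le {r : ℕ} {P T K : Subgroup G} (hM : MC r G P) (h : TK r T K) : T ≤ P := by
  have := hM.fin
  have := h.or.1
  exact le_sup_left.trans (le_of_syl hM.hr hM.idx le_sup_right
    (IsPGroup.to_sup_of_normal_left h.or.2.1 hM.pg))

theorem eq_P {r : ℕ} {P T K : Subgroup G} (hPNO : S_PNO) (hMSUB : S_MSUB) (hM : MC r G P)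
    (h : TK r T K) (L : Subgroup G) (hPL : P ≤ L) (hL : L ≠ ⊤) : L = P := by
  have := hM.fin
  have := h.or.1
  obtain ⟨O, hO, -, hO2⟩ := hPNO G r hM.hr L (hMSUB G r P hM L hPL hL)
  have hTL : T ≤ L := (T_le hM h).trans hPL
  have hO1 : ∀ x ∈ O, x = 1 := by
    intro x hx
    obtain ⟨hxL, hxr⟩ := (hO x).1 hx
    have hxK : x ∈ K := mem_K hM.hr h hxr
    have hxT : x ∈ T := by
      refine h.cen x hxK fun t ht => ?_
      have h1 : x * t * x⁻¹ * t⁻¹ ∈ T := T.mul_mem (h.or.1.conj_mem t ht x) (T.inv_mem ht)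
      have h2 : t * x⁻¹ * t⁻¹ ∈ O := by
        refine (hO _).2 ⟨L.mul_mem (L.mul_mem (hTL ht) (L.inv_mem hxL)) (L.inv_mem (hTL ht)), ?_⟩
        have e : orderOf (t * x⁻¹ * t⁻¹) = orderOf x := by
          have := orderOf_injective (MulAut.conj t).toMonoidHom (MulAut.conj t).injective x⁻¹
          simpa using this
        rwa [e]
      have h3 : x * t * x⁻¹ * t⁻¹ ∈ O := by
        have := O.mul_mem hx h2
        have e : x * (t * x⁻¹ * t⁻¹) = x * t * x⁻¹ * t⁻¹ := by group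
        rwa [e] at this
      obtain ⟨n, hn⟩ := pow_of h.or.2.1 h1
      have h4 := eq_one_of hM.hr hn ((hO _).1 h3).2
      have h5 : x * t * x⁻¹ * t⁻¹ * (t * x) = t * x := by rw [h4, one_mul]
      have h6 : x * t * x⁻¹ * t⁻¹ * (t * x) = x * t := by group
      rw [← h6, h5]
    obtain ⟨n, hn⟩ := pow_of h.or.2.1 hxT
    exact eq_one_of hM.hr hn hxr
  refine le_antisymm (le_of_syl hM.hr hM.idx hPL (pg_of fun x hx => ?_)) hPL
  obtain ⟨n, hn⟩ := hO2 x hx
  exact ⟨n, hO1 _ hn⟩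

theorem cen_le {r : ℕ} {T K : Subgroup G} (h : TK r T K) :
    centralizer (T : Set G) ≤ T := by
  have := h.or.1
  have hN : (centralizer (T : Set G)).Normal := by
    refine ⟨fun x hx g => ?_⟩
    rw [mem_centralizer_iff] at hx ⊢
    intro t ht
    have h1 : g⁻¹ * t * g ∈ T := by simpa using h.or.1.conj_mem t ht g⁻¹
    have h2 := hx _ h1
    calc t * (g * x * g⁻¹) = g * ((g⁻¹ * t * g) * x) * g⁻¹ := by group
      _ = g * (x * (g⁻¹ * t * g)) * g⁻¹ := by rw [h2]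
      _ = g * x * g⁻¹ * t := by group
  refine h.or.2.2 _ hN (pg_of fun x hx => ?_)
  obtain ⟨n, hn⟩ := h.pow x
  have h1 : x ^ r ^ n ∈ centralizer (T : Set G) := (centralizer (T : Set G)).pow_mem hx _
  have h2 : x ^ r ^ n ∈ T := h.cen _ hn fun t ht => (mem_centralizer_iff.1 h1 t ht).symm
  obtain ⟨m, hm⟩ := pow_of h.or.2.1 h2
  exact ⟨n + m, by rw [pow_add, pow_mul]; exact hm⟩

end

theorem t (hPNO : S_PNO) (hMSUB : S_MSUB) : S_MC2 := by
  intro G _ r P T K hM h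
  refine ⟨T_le hM h, eq_P hPNO hMSUB hM h, cen_le h, ?_⟩
  by_contra hne
  have h1 : K ⊔ P = P := eq_P hPNO hMSUB hM h _ le_sup_right hne
  have h2 : K ≤ P := le_sup_left.trans h1.le
  have h3 : ∀ g : G, ¬ r ∣ orderOf g → g = 1 := by
    intro g hg
    obtain ⟨n, hn⟩ := pow_of hM.pg (h2 (mem_K hM.hr h hg))
    exact eq_one_of hM.hr hn hg
  refine hM.bad fun x _ y _ hx hy => ?_
  rw [h3 x hx, h3 y hy, one_mul, orderOf_one]
  exact hM.hr.one_lt.ne' ∘ Nat.dvd_one.1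

end Pool.Agent.Helper2.SG.MC2
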